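import Pool.Agent.H76.SD.Targets

/-!
# Modules CL1 and CL2 of the board sd_modules (MP_c62aed_lc)
-/

set_option autoImplicit false

namespace Pool.Agent.H58.SD

open Finset
open Pool.Agent.H76.SD
open Pool.Agent.H1.LP (Agree)

variable {B : ℕ} {Q : Type} [Fintype Q] [DecidableEq Q]

theorem num_eq {α : Type} [Fintype α] (R : α → Prop) [DecidablePred R] :
    num R = ((univ.filter R).card : ℝ) := by
  unfold num
  have : ∀ (i1 i2 : DecidablePred R),
      (@filter _ R i1 univ).card = (@filter _ R i2 univ).card := fun i1 i2 => by
    rw [Subsingleton.elim i1 i2]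
  exact_mod_cast this _ _

theorem pre_eq (v : (Fin B → Q) → ℝ) (j : ℕ) (x : Fin B → Q) :
    pre v j x = ∑ y with (∀ i : Fin B, i.1 < j → y i = x i), v y := by
  unfold pre
  have : ∀ (i1 i2 : DecidablePred (fun y : Fin B → Q => ∀ i : Fin B, i.1 < j → y i = x i)),
      ∑ y ∈ @filter _ _ i1 univ, v y = ∑ y ∈ @filter _ _ i2 univ, v y := fun i1 i2 => by
    rw [Subsingleton.elim i1 i2]
  exact this _ _

theorem fg_spec (P : ℕ → Prop) (inst : DecidablePred P) (E : ℕ) (h0 : P 0) :
    P (@Nat.findGreatest P inst E) := Nat.findGreatest_spec (Nat.zero_le E) h0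

theorem fg_not (P : ℕ → Prop) (inst : DecidablePred P) (E a : ℕ)
    (h : @Nat.findGreatest P inst E = a) (ha : a < E) : ¬ P (a + 1) :=
  Nat.findGreatest_is_greatest (by omega) ha

theorem fg_le (P : ℕ → Prop) (inst : DecidablePred P) (E : ℕ) :
    @Nat.findGreatest P inst E ≤ E := Nat.findGreatest_le E

theorem pre_nonneg {v : (Fin B → Q) → ℝ} (hv : ∀ x, 0 ≤ v x) (j : ℕ) (x : Fin B → Q) :
    0 ≤ pre v j x := by
  unfold pre
  exact sum_nonneg fun y _ => hv y

theorem pre_anti {v : (Fin B → Q) → ℝ} (hv : ∀ x, 0 ≤ v x) (j : ℕ) (x : Fin B → Q) :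
    pre v (j + 1) x ≤ pre v j x := by
  rw [pre_eq, pre_eq]
  apply sum_le_sum_of_subset_of_nonneg
  · intro y hy
    rw [mem_filter] at hy ⊢
    exact ⟨hy.1, fun i hi => hy.2 i (by omega)⟩
  · intro y _ _
    exact hv y

theorem pre_congr (v : (Fin B → Q) → ℝ) (j : ℕ) (x x' : Fin B → Q)
    (h : ∀ i : Fin B, i.1 < j → x i = x' i) : pre v j x = pre v j x' := by
  rw [pre_eq, pre_eq]
  apply sum_congr _ fun _ _ => rfl
  ext y
  simp only [mem_filter, mem_univ, true_and]
  constructor
  · intro hy i hi
    rw [hy i hi, h i hi]
  · intro hy i hi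
    rw [hy i hi, h i hi]

theorem lev_congr (v : (Fin B → Q) → ℝ) (D E : ℕ) (j : Fin B) (x x' : Fin B → Q)
    (h : ∀ i : Fin B, i.1 < j.1 + 1 → x i = x' i) : lev v D E x j = lev v D E x' j := by
  unfold lev
  rw [pre_congr v (j.1 + 1) x x' h, pre_congr v j.1 x x' fun i hi => h i (by omega)]

theorem lev_spec {v : (Fin B → Q) → ℝ} (hv : ∀ x, 0 ≤ v x) (D E : ℕ) (x : Fin B → Q)
    (j : Fin B) : pre v (j.1 + 1) x * (D : ℝ) ^ (lev v D E x j) ≤ pre v j.1 x := by
  classical
  have h0 : (fun a => pre v (j.1 + 1) x * (D : ℝ) ^ a ≤ pre v j.1 x) 0 := by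
    simp only [pow_zero, mul_one]
    exact pre_anti hv j.1 x
  unfold lev
  exact fg_spec (fun a => pre v (j.1 + 1) x * (D : ℝ) ^ a ≤ pre v j.1 x) _ E h0

theorem lev_not (v : (Fin B → Q) → ℝ) (D E : ℕ) (x : Fin B → Q) (j : Fin B) (a : ℕ)
    (h : lev v D E x j = a) (ha : a < E) :
    pre v j.1 x < pre v (j.1 + 1) x * (D : ℝ) ^ (a + 1) := by
  unfold lev at h
  exact not_le.mp
    (fg_not (fun a => pre v (j.1 + 1) x * (D : ℝ) ^ a ≤ pre v j.1 x) _ E a h ha)

theorem lev_le (v : (Fin B → Q) → ℝ) (D E : ℕ) (x : Fin B → Q) (j : Fin B) :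
    lev v D E x j ≤ E := by
  unfold lev
  exact fg_le (fun a => pre v (j.1 + 1) x * (D : ℝ) ^ a ≤ pre v j.1 x) _ E

theorem pre_split (f : (Fin B → Q) → ℝ) (j : Fin B) (x : Fin B → Q) :
    pre f j.1 x = ∑ q, pre f (j.1 + 1) (Function.update x j q) := by
  classical
  have key : ∀ q : Q, pre f (j.1 + 1) (Function.update x j q) =
      ∑ y ∈ (univ.filter fun y : Fin B → Q => ∀ i : Fin B, i.1 < j.1 → y i = x i) with y j = q,
        f y := by
    intro q
    rw [pre_eq, filter_filter]
    apply sum_congr _ fun _ _ => rfl
    ext y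
    simp only [mem_filter, mem_univ, true_and]
    constructor
    · intro hy
      refine ⟨fun i hi => ?_, ?_⟩
      · have := hy i (by omega)
        rwa [Function.update_of_ne (by intro h; rw [h] at hi; exact lt_irrefl _ hi)] at this
      · have := hy j (by omega)
        rwa [Function.update_self] at this
    · intro hy i hi
      by_cases hij : i = j
      · subst hij
        rw [Function.update_self]
        exact hy.2
      · rw [Function.update_of_ne hij]
        refine hy.1 i ?_
        have : i.1 ≠ j.1 := fun h => hij (Fin.ext h)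
        omega
  simp only [key]
  rw [pre_eq, sum_fiberwise]

theorem pre_last (f : (Fin B → Q) → ℝ) (x : Fin B → Q) : pre f B x = f x := by
  rw [pre_eq]
  have : (univ.filter fun y : Fin B → Q => ∀ i : Fin B, i.1 < B → y i = x i) = {x} := by
    ext y
    simp only [mem_filter, mem_univ, true_and, mem_singleton]
    constructor
    · intro h
      funext i
      exact h i i.2
    · intro h i _
      rw [h]
  rw [this, sum_singleton]

theorem pre_first (f : (Fin B → Q) → ℝ) (x : Fin B → Q) : pre f 0 x = ∑ y, f y := by
  rw [pre_eq]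
  have : (univ.filter fun y : Fin B → Q => ∀ i : Fin B, i.1 < 0 → y i = x i) = univ := by
    ext y
    simp
  rw [this]

/-- a nonzero restricted sum has a witness -/
theorem pre_witness (f : (Fin B → Q) → ℝ) (j : ℕ) (x : Fin B → Q) (h : pre f j x ≠ 0) :
    ∃ x' : Fin B → Q, (∀ i : Fin B, i.1 < j → x' i = x i) ∧ f x' ≠ 0 := by
  rw [pre_eq] at h
  obtain ⟨x', hx', hf⟩ := exists_ne_zero_of_sum_ne_zero h
  rw [mem_filter] at hx'
  exact ⟨x', hx'.2, hf⟩

theorem sum_ge_split (s : Finset (Fin B)) (a : Fin B → ℕ) (j : Fin B) :
    ∑ i ∈ s.filter (fun i => j.1 ≤ i.1), a i =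
      (if j ∈ s then a j else 0) + ∑ i ∈ s.filter (fun i => j.1 + 1 ≤ i.1), a i := by
  classical
  by_cases hj : j ∈ s
  · rw [if_pos hj]
    have : s.filter (fun i => j.1 ≤ i.1) = insert j (s.filter (fun i => j.1 + 1 ≤ i.1)) := by
      ext i
      simp only [mem_filter, mem_insert]
      constructor
      · rintro ⟨h1, h2⟩
        by_cases hij : i = j
        · exact Or.inl hij
        · have : i.1 ≠ j.1 := fun h => hij (Fin.ext h)
          exact Or.inr ⟨h1, by omega⟩
      · rintro (h | ⟨h1, h2⟩)
        · subst h
          exact ⟨hj, le_refl _⟩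
        · exact ⟨h1, by omega⟩
    rw [this, sum_insert]
    simp
  · rw [if_neg hj, zero_add]
    apply sum_congr _ fun _ _ => rfl
    ext i
    simp only [mem_filter]
    constructor
    · rintro ⟨h1, h2⟩
      have hij : i ≠ j := fun h => hj (h ▸ h1)
      have : i.1 ≠ j.1 := fun h => hij (Fin.ext h)
      exact ⟨h1, by omega⟩
    · rintro ⟨h1, h2⟩
      exact ⟨h1, by omega⟩

theorem cl1 : T_CL1 := by
  classical
  intro B D E Q _ _ v a L y hD hv
  have hD1 : (1 : ℝ) ≤ D := by exact_mod_cast hD
  set f : (Fin B → Q) → ℝ :=
    fun x => if Agree L x y ∧ ∀ j, lev v D E x j = a j then v x else 0 with hf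
  have hf0 : ∀ x, 0 ≤ f x := by
    intro x
    simp only [hf]
    split_ifs
    · exact hv x
    · exact le_refl _
  have hfv : ∀ x, f x ≤ v x := by
    intro x
    simp only [hf]
    split_ifs
    · exact le_refl _
    · exact hv x
  have main : ∀ k : ℕ, k ≤ B → ∀ x : Fin B → Q,
      pre f (B - k) x * (D : ℝ) ^ (∑ i ∈ L.filter (fun i => B - k ≤ i.1), a i) ≤
        pre v (B - k) x := by
    intro k
    induction k with
    | zero =>
      intro _ x
      have h1 : L.filter (fun i => B - 0 ≤ i.1) = ∅ := by
        rw [filter_eq_empty_iff]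
        intro i _
        have := i.2
        omega
      rw [h1, sum_empty, pow_zero, mul_one, Nat.sub_zero, pre_last, pre_last]
      exact hfv x
    | succ k ih =>
      intro hk x
      obtain ⟨j, hj⟩ : ∃ j : Fin B, j.1 = B - (k + 1) := ⟨⟨B - (k + 1), by omega⟩, rfl⟩
      have hj1 : B - k = j.1 + 1 := by omega
      have ih' : ∀ x : Fin B → Q,
          pre f (j.1 + 1) x * (D : ℝ) ^ (∑ i ∈ L.filter (fun i => j.1 + 1 ≤ i.1), a i) ≤
            pre v (j.1 + 1) x := by
        intro x
        have := ih (by omega) x
        rwa [hj1] at this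
      rw [← hj, sum_ge_split]
      by_cases hjL : j ∈ L
      · rw [if_pos hjL, pow_add]
        have hone : pre f j.1 x = pre f (j.1 + 1) (Function.update x j (y j)) := by
          rw [pre_split f j x]
          apply sum_eq_single
          · intro q _ hq
            by_contra hne
            obtain ⟨x', hx', hfx⟩ := pre_witness _ _ _ hne
            have h1 := hx' j (by omega)
            rw [Function.update_self] at h1
            apply hfx
            simp only [hf]
            rw [if_neg]
            rintro ⟨h2, _⟩
            exact hq (by rw [← h1]; exact h2 j hjL)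
          · intro h
            exact absurd (mem_univ _) h
        by_cases hz : pre f (j.1 + 1) (Function.update x j (y j)) = 0
        · rw [hone, hz, zero_mul]
          exact pre_nonneg hv _ _
        · obtain ⟨x', hx', hfx⟩ := pre_witness _ _ _ hz
          have hR : Agree L x' y ∧ ∀ j, lev v D E x' j = a j := by
            by_contra hR
            apply hfx
            simp only [hf]
            rw [if_neg hR]
          have h1 := lev_spec hv D E x' j
          rw [hR.2 j] at h1
          rw [pre_congr v (j.1 + 1) x' _ hx'] at h1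
          have h2 : pre v j.1 x' = pre v j.1 x := by
            apply pre_congr
            intro i hi
            rw [hx' i (by omega), Function.update_of_ne]
            intro h
            rw [h] at hi
            exact lt_irrefl _ hi
          rw [h2] at h1
          have h3 := ih' (Function.update x j (y j))
          rw [hone]
          calc pre f (j.1 + 1) (Function.update x j (y j)) *
                ((D : ℝ) ^ a j * (D : ℝ) ^ (∑ i ∈ L.filter (fun i => j.1 + 1 ≤ i.1), a i))
              = (pre f (j.1 + 1) (Function.update x j (y j)) *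
                (D : ℝ) ^ (∑ i ∈ L.filter (fun i => j.1 + 1 ≤ i.1), a i)) * (D : ℝ) ^ a j := by
                ring
            _ ≤ pre v (j.1 + 1) (Function.update x j (y j)) * (D : ℝ) ^ a j :=
                mul_le_mul_of_nonneg_right h3 (by positivity)
            _ ≤ pre v j.1 x := h1
      · rw [if_neg hjL, zero_add, pre_split f j x, pre_split v j x, sum_mul]
        exact sum_le_sum fun q _ => ih' _
  by_cases hne : Nonempty (Fin B → Q)
  · obtain ⟨x⟩ := hne
    have h := main B (le_refl _) x
    rw [Nat.sub_self, pre_first, pre_first] at h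
    have h1 : L.filter (fun i => 0 ≤ i.1) = L := by
      rw [filter_eq_self]
      intro i _
      exact Nat.zero_le _
    rw [h1] at h
    have h2 : ∑ x, f x =
        ∑ x with (Agree L x y ∧ ∀ j, lev v D E x j = a j), v x := by
      simp only [hf]
      rw [sum_filter]
    rw [h2] at h
    exact h
  · rw [not_nonempty_iff] at hne
    rw [sum_eq_zero (fun x _ => (hne.false x).elim), zero_mul]
    exact sum_nonneg fun x _ => hv x

theorem lev_count {v : (Fin B → Q) → ℝ} (hv : ∀ x, 0 ≤ v x) (D E : ℕ) (hD : 1 ≤ D)
    (hQ : Fintype.card Q = D ^ E) (x : Fin B → Q) (j : Fin B) (a : ℕ) :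
    (((univ.filter fun q : Q => lev v D E (Function.update x j q) j = a).card : ℕ) : ℝ) ≤
      (D : ℝ) ^ (a + 1) := by
  classical
  have hD1 : (1 : ℝ) ≤ D := by exact_mod_cast hD
  rcases lt_trichotomy a E with haE | haE | haE
  · -- a < E
    have hup : ∀ q : Q, pre v j.1 (Function.update x j q) = pre v j.1 x := by
      intro q
      apply pre_congr
      intro i hi
      rw [Function.update_of_ne]
      intro h
      rw [h] at hi
      exact lt_irrefl _ hi
    have hbig : ∀ q ∈ (univ.filter fun q : Q => lev v D E (Function.update x j q) j = a),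
        pre v j.1 x < pre v (j.1 + 1) (Function.update x j q) * (D : ℝ) ^ (a + 1) := by
      intro q hq
      rw [mem_filter] at hq
      have h1 := lev_not v D E (Function.update x j q) j a hq.2 haE
      rwa [hup q] at h1
    by_cases hp : pre v j.1 x = 0
    · have : (univ.filter fun q : Q => lev v D E (Function.update x j q) j = a) = ∅ := by
        rw [eq_empty_iff_forall_notMem]
        intro q hq
        have h1 := hbig q hq
        have h2 : pre v (j.1 + 1) (Function.update x j q) ≤ 0 := by
          have := pre_anti hv j.1 (Function.update x j q)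
          rwa [hup q, hp] at this
        have h3 : pre v (j.1 + 1) (Function.update x j q) * (D : ℝ) ^ (a + 1) ≤ 0 :=
          mul_nonpos_of_nonpos_of_nonneg h2 (by positivity)
        rw [hp] at h1
        linarith
      rw [this, card_empty, Nat.cast_zero]
      positivity
    · have hpos : 0 < pre v j.1 x := lt_of_le_of_ne (pre_nonneg hv _ _) (Ne.symm hp)
      have h1 : (((univ.filter fun q : Q =>
          lev v D E (Function.update x j q) j = a).card : ℕ) : ℝ) * pre v j.1 x ≤
          (D : ℝ) ^ (a + 1) * pre v j.1 x := by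
        calc (((univ.filter fun q : Q =>
              lev v D E (Function.update x j q) j = a).card : ℕ) : ℝ) * pre v j.1 x
            = ∑ q ∈ (univ.filter fun q : Q => lev v D E (Function.update x j q) j = a),
                pre v j.1 x := by rw [sum_const, nsmul_eq_mul]
          _ ≤ ∑ q ∈ (univ.filter fun q : Q => lev v D E (Function.update x j q) j = a),
                pre v (j.1 + 1) (Function.update x j q) * (D : ℝ) ^ (a + 1) :=
              sum_le_sum fun q hq => (hbig q hq).le
          _ ≤ ∑ q, pre v (j.1 + 1) (Function.update x j q) * (D : ℝ) ^ (a + 1) := by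
              apply sum_le_sum_of_subset_of_nonneg (filter_subset _ _)
              intro q _ _
              exact mul_nonneg (pre_nonneg hv _ _) (by positivity)
          _ = (D : ℝ) ^ (a + 1) * pre v j.1 x := by
              rw [← sum_mul, ← pre_split v j x, mul_comm]
      exact le_of_mul_le_mul_right h1 hpos
  · -- a = E
    have h1 : (univ.filter fun q : Q => lev v D E (Function.update x j q) j = a).card ≤
        D ^ E := by
      rw [← hQ]
      exact card_le_univ _
    have h2 : (((univ.filter fun q : Q =>
        lev v D E (Function.update x j q) j = a).card : ℕ) : ℝ) ≤ (D : ℝ) ^ E := by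
      exact_mod_cast h1
    refine h2.trans ?_
    rw [haE]
    exact pow_le_pow_right₀ hD1 (Nat.le_succ _)
  · have : (univ.filter fun q : Q => lev v D E (Function.update x j q) j = a) = ∅ := by
      rw [eq_empty_iff_forall_notMem]
      intro q hq
      rw [mem_filter] at hq
      have h1 := lev_le v D E (Function.update x j q) j
      rw [hq.2] at h1
      omega
    rw [this, card_empty, Nat.cast_zero]
    positivity

theorem cl2 : T_CL2 := by
  classical
  intro B D E Q _ _ v a hD hQ hv
  have hD1 : (1 : ℝ) ≤ D := by exact_mod_cast hD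
  set f : (Fin B → Q) → ℝ :=
    fun x => if ∀ j, lev v D E x j = a j then 1 else 0 with hf
  have hf0 : ∀ x, 0 ≤ f x := by
    intro x
    simp only [hf]
    split_ifs
    · exact zero_le_one
    · exact le_refl _
  have hf1 : ∀ x, f x ≤ 1 := by
    intro x
    simp only [hf]
    split_ifs
    · exact le_refl _
    · exact zero_le_one
  have main : ∀ k : ℕ, k ≤ B → ∀ x : Fin B → Q,
      pre f (B - k) x ≤
        (D : ℝ) ^ (∑ i ∈ (univ : Finset (Fin B)).filter (fun i => B - k ≤ i.1), (a i + 1)) := by
    intro k
    induction k with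
    | zero =>
      intro _ x
      have h1 : (univ : Finset (Fin B)).filter (fun i => B - 0 ≤ i.1) = ∅ := by
        rw [filter_eq_empty_iff]
        intro i _
        have := i.2
        omega
      rw [h1, sum_empty, pow_zero, Nat.sub_zero, pre_last]
      exact hf1 x
    | succ k ih =>
      intro hk x
      obtain ⟨j, hj⟩ : ∃ j : Fin B, j.1 = B - (k + 1) := ⟨⟨B - (k + 1), by omega⟩, rfl⟩
      have hj1 : B - k = j.1 + 1 := by omega
      have ih' : ∀ x : Fin B → Q,
          pre f (j.1 + 1) x ≤
            (D : ℝ) ^ (∑ i ∈ (univ : Finset (Fin B)).filter (fun i => j.1 + 1 ≤ i.1),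
              (a i + 1)) := by
        intro x
        have := ih (by omega) x
        rwa [hj1] at this
      rw [← hj, sum_ge_split univ (fun i => a i + 1), if_pos (mem_univ _), pow_add,
        pre_split f j x]
      have hzero : ∀ q : Q, lev v D E (Function.update x j q) j ≠ a j →
          pre f (j.1 + 1) (Function.update x j q) = 0 := by
        intro q hq
        by_contra hne
        obtain ⟨x', hx', hfx⟩ := pre_witness _ _ _ hne
        have hR : ∀ j, lev v D E x' j = a j := by
          by_contra hR
          apply hfx
          simp only [hf]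
          rw [if_neg hR]
        apply hq
        rw [← hR j]
        exact (lev_congr v D E j x' _ hx').symm
      rw [← sum_filter_add_sum_filter_not univ
        (fun q : Q => lev v D E (Function.update x j q) j = a j)]
      rw [sum_eq_zero (s := univ.filter
        (fun q : Q => ¬ lev v D E (Function.update x j q) j = a j))
        (fun q hq => hzero q (mem_filter.mp hq).2), add_zero]
      calc ∑ q ∈ univ.filter (fun q : Q => lev v D E (Function.update x j q) j = a j),
            pre f (j.1 + 1) (Function.update x j q)
          ≤ ∑ q ∈ univ.filter (fun q : Q => lev v D E (Function.update x j q) j = a j),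
            (D : ℝ) ^ (∑ i ∈ (univ : Finset (Fin B)).filter (fun i => j.1 + 1 ≤ i.1),
              (a i + 1)) := sum_le_sum fun q _ => ih' _
        _ = (((univ.filter fun q : Q =>
              lev v D E (Function.update x j q) j = a j).card : ℕ) : ℝ) *
            (D : ℝ) ^ (∑ i ∈ (univ : Finset (Fin B)).filter (fun i => j.1 + 1 ≤ i.1),
              (a i + 1)) := by rw [sum_const, nsmul_eq_mul]
        _ ≤ _ := mul_le_mul_of_nonneg_right (lev_count hv D E hD hQ x j (a j))
              (by positivity)
  by_cases hne : Nonempty (Fin B → Q)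
  · obtain ⟨x⟩ := hne
    have h := main B (le_refl _) x
    rw [Nat.sub_self, pre_first] at h
    have h1 : (univ : Finset (Fin B)).filter (fun i => 0 ≤ i.1) = univ := by
      rw [filter_eq_self]
      intro i _
      exact Nat.zero_le _
    rw [h1] at h
    have h2 : ∑ x, f x = num (fun x : Fin B → Q => ∀ j, lev v D E x j = a j) := by
      rw [num_eq]
      simp only [hf]
      rw [sum_boole]
    rw [h2] at h
    exact h
  · rw [not_nonempty_iff] at hne
    rw [num_eq, Finset.card_eq_zero.mpr, Nat.cast_zero]
    · positivity
    · rw [eq_empty_iff_forall_notMem]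
      intro x _
      exact hne.false x

end Pool.Agent.H58.SD
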