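import Pool.Agent.H76.SD.Targets

/-!
# Module PSX of the board sd_modules (MP_c62aed_lc)
-/

set_option autoImplicit false

namespace Pool.Agent.H58.SD

open Finset
open Pool.Agent.H76.SD
open Pool.Agent.H1.LP (Loc PD Viol Sys supp ip val Agree FS Typ kk)

variable {p B : ℕ} {Q : Type} [Fintype Q] [DecidableEq Q]

/-- the frequency of a linear form at the point `x` -/
def mm (x : Fin B → Q) (l : Fin B → ZMod p) : Fin B → Q → ZMod p :=
  fun j q => if q = x j then l j else 0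

theorem tp_mm (x : Fin B → Q) (l : Fin B → ZMod p) (al : Fin B → Q → ZMod p) :
    tp (mm x l) al = ip l (Pool.Agent.H1.LP.val al x) := by
  unfold tp mm ip Pool.Agent.H1.LP.val
  apply sum_congr rfl
  intro j _
  simp only [ite_mul, zero_mul]
  rw [sum_ite_eq' univ (x j) (fun q => l j * al j q), if_pos (mem_univ _)]

theorem mm_apply (x : Fin B → Q) (l : Fin B → ZMod p) (j : Fin B) : mm x l j (x j) = l j := by
  unfold mm
  rw [if_pos rfl]

theorem mm_inj (x : Fin B → Q) {l l' : Fin B → ZMod p} (h : mm x l = mm x l') : l = l' := by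
  funext j
  rw [← mm_apply x l j, ← mm_apply x l' j, h]

theorem mm_zero (x : Fin B → Q) : mm x (0 : Fin B → ZMod p) = 0 := by
  funext j q
  unfold mm
  simp

theorem mm_add (x : Fin B → Q) (l l' : Fin B → ZMod p) :
    mm x (l + l') = mm x l + mm x l' := by
  funext j q
  unfold mm
  simp only [Pi.add_apply]
  split_ifs
  · rfl
  · rw [add_zero]

theorem mm_neg (x : Fin B → Q) (l : Fin B → ZMod p) : mm x (-l) = - mm x l := by
  funext j q
  unfold mm
  simp only [Pi.neg_apply]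
  split_ifs
  · rfl
  · rw [neg_zero]

theorem supp_eq_hit (x : Fin B → Q) (l : Fin B → ZMod p) : supp l = hit (mm x l) x := by
  unfold supp hit
  ext j
  simp only [mem_filter, mem_univ, true_and]
  rw [mm_apply]

theorem hit_sub (x : Fin B → Q) (a b : Fin B → Q → ZMod p) :
    hit (a - b) x ⊆ hit a x ∪ hit b x := by
  intro j hj
  unfold hit at *
  simp only [mem_filter, mem_univ, true_and, mem_union, Pi.sub_apply] at hj ⊢
  by_contra hcon
  rw [not_or, not_not, not_not] at hcon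
  apply hj
  rw [hcon.1, hcon.2, sub_zero]

theorem tp_add (a b al : Fin B → Q → ZMod p) : tp (a + b) al = tp a al + tp b al := by
  unfold tp
  simp only [Pi.add_apply, add_mul, sum_add_distrib]

theorem tp_neg (a al : Fin B → Q → ZMod p) : tp (-a) al = - tp a al := by
  unfold tp
  simp only [Pi.neg_apply, neg_mul, sum_neg_distrib]

variable [NeZero p]

theorem chr_add (a b al : Fin B → Q → ZMod p) : chr (a + b) al = chr a al * chr b al := by
  unfold chr
  rw [tp_add, AddChar.map_add_eq_mul]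

theorem chr_neg (a al : Fin B → Q → ZMod p) :
    chr (-a) al = (starRingEnd ℂ) (chr a al) := by
  unfold chr
  rw [tp_neg, AddChar.map_neg_eq_conj]

variable {d : ℕ}

/-- the kernel -/
noncomputable def KK (S : Loc p B d) (x : Fin B → Q) (a b : Fin B → Q → ZMod p) : ℂ :=
  ∑ l ∈ S.La, if mm x l = a - b then (ZMod.stdAddChar (- S.ga l) : ℂ) else 0

theorem KK_of (S : Loc p B d) (x : Fin B → Q) (a b : Fin B → Q → ZMod p) (l : Fin B → ZMod p)
    (hl : l ∈ S.La) (h : mm x l = a - b) : KK S x a b = ZMod.stdAddChar (- S.ga l) := by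
  unfold KK
  rw [sum_eq_single l]
  · rw [if_pos h]
  · intro l' _ hne
    rw [if_neg]
    intro h'
    exact hne (mm_inj x (h'.trans h.symm))
  · intro h'
    exact absurd hl h'

theorem KK_ne (S : Loc p B d) (x : Fin B → Q) (a b : Fin B → Q → ZMod p) (h : KK S x a b ≠ 0) :
    ∃ l ∈ S.La, mm x l = a - b := by
  unfold KK at h
  obtain ⟨l, hl, hne⟩ := exists_ne_zero_of_sum_ne_zero h
  refine ⟨l, hl, ?_⟩
  by_contra hc
  exact hne (if_neg hc)

theorem ga_zero (S : Loc p B d) : S.ga 0 = 0 := by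
  have h := S.add_ga 0 S.zero_mem 0 S.zero_mem (by
    rw [add_zero]
    exact S.small 0 S.zero_mem)
  rw [add_zero] at h
  exact left_eq_add.mp h

theorem ga_neg (S : Loc p B d) (l : Fin B → ZMod p) (hl : l ∈ S.La) :
    S.ga (-l) = - S.ga l := by
  have h0 : (supp (l + -l)).card ≤ d := by
    rw [add_neg_cancel]
    exact S.small 0 S.zero_mem
  have h := S.add_ga l hl (-l) (S.neg_mem l hl) h0
  rw [add_neg_cancel, ga_zero] at h
  exact (neg_eq_of_add_eq_zero_right h.symm).symm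

theorem KK_diag (S : Loc p B d) (x : Fin B → Q) (a : Fin B → Q → ZMod p) :
    KK S x a a = 1 := by
  rw [KK_of S x a a 0 S.zero_mem (by rw [mm_zero, sub_self]), ga_zero, neg_zero,
    AddChar.map_zero_eq_one]

theorem KK_conj_of (S : Loc p B d) (x : Fin B → Q) (a b : Fin B → Q → ZMod p)
    (h : KK S x a b ≠ 0) : KK S x b a = (starRingEnd ℂ) (KK S x a b) := by
  obtain ⟨l, hl, hm⟩ := KK_ne S x a b h
  rw [KK_of S x a b l hl hm, KK_of S x b a (-l) (S.neg_mem l hl)
    (by rw [mm_neg, hm, neg_sub]), ga_neg S l hl, ← AddChar.map_neg_eq_conj]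

theorem KK_conj (S : Loc p B d) (x : Fin B → Q) (a b : Fin B → Q → ZMod p) :
    KK S x b a = (starRingEnd ℂ) (KK S x a b) := by
  by_cases h : KK S x a b = 0
  · by_cases h' : KK S x b a = 0
    · rw [h, h', map_zero]
    · have := KK_conj_of S x b a h'
      rw [this, Complex.conj_conj]
  · exact KK_conj_of S x a b h

theorem KK_mul (S : Loc p B d) (x : Fin B → Q) (Ls : Finset (Finset (Fin B)))
    (hLs : ∀ L ∈ Ls, ∀ L' ∈ Ls, (L ∪ L').card ≤ d) (a b e : Fin B → Q → ZMod p)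
    (ha : hit a x ∈ Ls) (he : hit e x ∈ Ls) (h1 : KK S x a b ≠ 0) (h2 : KK S x b e ≠ 0) :
    KK S x a b * KK S x b e = KK S x a e := by
  obtain ⟨l, hl, hm⟩ := KK_ne S x a b h1
  obtain ⟨l', hl', hm'⟩ := KK_ne S x b e h2
  have hmm : mm x (l + l') = a - e := by
    rw [mm_add, hm, hm']
    abel
  have hc : (supp (l + l')).card ≤ d := by
    rw [supp_eq_hit x, hmm]
    exact (card_le_card (hit_sub x a e)).trans (hLs _ ha _ he)
  rw [KK_of S x a b l hl hm, KK_of S x b e l' hl' hm',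
    KK_of S x a e (l + l') (S.add_mem l hl l' hl' hc) hmm, S.add_ga l hl l' hl' hc,
    ← AddChar.map_add_eq_mul]
  congr 1
  abel

theorem PD_re (S : Loc p B d) (al : Fin B → Q → ZMod p) (x : Fin B → Q) :
    PD S al x = (∑ l ∈ S.La, (ZMod.stdAddChar (- S.ga l) : ℂ) * chr (mm x l) al).re := by
  unfold PD
  rw [Complex.re_sum]
  apply sum_congr rfl
  intro l _
  unfold chr
  rw [tp_mm, ← AddChar.map_add_eq_mul, neg_add_eq_sub]

theorem norm_sq_re (w z : ℂ) : w.re * ‖z‖ ^ 2 = (w * ((starRingEnd ℂ) z * z)).re := by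
  rw [← Complex.normSq_eq_conj_mul_self, Complex.normSq_eq_norm_sq, Complex.re_mul_ofReal]

theorem expand (hch : ∀ ga : Fin B → Q → ZMod p, ∑ al, chr ga al =
      if ga = 0 then (Fintype.card (Fin B → Q → ZMod p) : ℂ) else 0)
    (S : Loc p B d) (x : Fin B → Q) (Ga : Finset (Fin B → Q → ZMod p))
    (c : (Fin B → Q → ZMod p) → ℂ) :
    ∑ al, (∑ l ∈ S.La, (ZMod.stdAddChar (- S.ga l) : ℂ) * chr (mm x l) al) *
      ((starRingEnd ℂ) (∑ ga ∈ Ga, c ga * chr ga al) * (∑ ga ∈ Ga, c ga * chr ga al)) =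
    (Fintype.card (Fin B → Q → ZMod p) : ℂ) *
      ∑ a ∈ Ga, ∑ b ∈ Ga, (starRingEnd ℂ) (c a) * KK S x a b * c b := by
  have h1 : ∀ al : Fin B → Q → ZMod p,
      (∑ l ∈ S.La, (ZMod.stdAddChar (- S.ga l) : ℂ) * chr (mm x l) al) *
      ((starRingEnd ℂ) (∑ ga ∈ Ga, c ga * chr ga al) * (∑ ga ∈ Ga, c ga * chr ga al)) =
      ∑ a ∈ Ga, ∑ b ∈ Ga, ∑ l ∈ S.La, (starRingEnd ℂ) (c a) * c b *
        (ZMod.stdAddChar (- S.ga l) : ℂ) * chr (mm x l + -a + b) al := by
    intro al
    rw [map_sum, sum_mul_sum, mul_sum]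
    apply sum_congr rfl
    intro a _
    rw [mul_sum]
    apply sum_congr rfl
    intro b _
    rw [sum_mul]
    apply sum_congr rfl
    intro l _
    rw [map_mul, chr_add, chr_add, chr_neg]
    ring
  simp only [h1]
  rw [sum_comm, mul_sum]
  apply sum_congr rfl
  intro a _
  rw [sum_comm, mul_sum]
  apply sum_congr rfl
  intro b _
  rw [sum_comm]
  unfold KK
  rw [mul_sum, sum_mul, mul_sum]
  apply sum_congr rfl
  intro l _
  rw [← mul_sum, hch]
  have h2 : mm x l + -a + b = 0 ↔ mm x l = a - b := by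
    rw [add_assoc, add_eq_zero_iff_eq_neg]
    have : -(-a + b) = a - b := by abel
    rw [this]
  by_cases h : mm x l = a - b
  · rw [if_pos (h2.mpr h), if_pos h]
    ring
  · rw [if_neg (fun h' => h (h2.mp h')), if_neg h]
    ring

theorem psx (hKER : T_KER) (hCHR : T_CHR) : T_PSX := by
  intro p B d _ Q _ _ S x Ls hLs Ga c hGa
  have hch := (hCHR p B Q).1
  have h1 : ∑ al, PD S al x * ‖∑ ga ∈ Ga, c ga * chr ga al‖ ^ 2 =
      (∑ al, (∑ l ∈ S.La, (ZMod.stdAddChar (- S.ga l) : ℂ) * chr (mm x l) al) *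
      ((starRingEnd ℂ) (∑ ga ∈ Ga, c ga * chr ga al) *
        (∑ ga ∈ Ga, c ga * chr ga al))).re := by
    rw [Complex.re_sum]
    apply sum_congr rfl
    intro al _
    rw [← norm_sq_re, ← PD_re]
  rw [h1, expand hch]
  obtain ⟨t, ht, hsum⟩ := hKER {ga // ga ∈ Ga} (fun a b => KK S x a.1 b.1)
    (fun a => KK_diag S x a.1) (fun a b => KK_conj S x a.1 b.1)
    (fun a b e h1 h2 => KK_mul S x Ls hLs a.1 b.1 e.1 (hGa a.1 a.2) (hGa e.1 e.2) h1 h2)
    (fun a => c a.1)
  have h2 : ∑ a ∈ Ga, ∑ b ∈ Ga, (starRingEnd ℂ) (c a) * KK S x a b * c b = (t : ℂ) := by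
    rw [← hsum, ← sum_coe_sort Ga]
    apply sum_congr rfl
    intro a _
    rw [← sum_coe_sort Ga]
  rw [h2, ← Complex.ofReal_natCast, ← Complex.ofReal_mul, Complex.ofReal_re]
  exact mul_nonneg (Nat.cast_nonneg _) ht

end Pool.Agent.H58.SD
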